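import Mathlib
import Pool.Agent.H720R2.HP.Asm
import Pool.Agent.H788R3.Cor2.Op2

/-!
From cutoff functions to solutions of the Bezout equation on domains over the half plane with
holomorphic retractions onto the slices (generalises `Pool.Agent.H720R2.HP.Asm`).
-/

set_option autoImplicit false
set_option linter.unusedSectionVars false

open MeasureTheory Metric Set Filter Topology Complex
open scoped ContDiff

namespace Pool.Agent.H788R3.Cor2

open Pool.Agent.H720R2 Pool.Agent.H720R2.HP

variable {E : Type} [NormedAddCommGroup E] [NormedSpace ℂ E] [FiniteDimensional ℂ E]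

theorem osgood2 {D : Set (ℂ × E)} (hD : IsOpen D) {u : ℂ × E → ℂ} {C : ℝ} (hb : ∀ p ∈ D, ‖u p‖ ≤ C)
    (h1 : ∀ y : E, DifferentiableOn ℂ (fun w => u (w, y)) {w : ℂ | (w, y) ∈ D})
    (h2 : ∀ w : ℂ, DifferentiableOn ℂ (fun y : E => u (w, y)) {y | (w, y) ∈ D}) :
    DifferentiableOn ℂ u (D) := by
  rintro ⟨w0, y0⟩ hp0
  apply DifferentiableAt.differentiableWithinAt
  obtain ⟨ε, hε, hB⟩ := Metric.isOpen_iff.1 hD _ hp0
  set r := ε / 2 with hr
  have hr0 : 0 < r := by positivity
  have hsub : ∀ w ∈ closedBall w0 r, ∀ y ∈ ball y0 r, (w, y) ∈ D := by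
    intro w hw y hy
    refine hB ?_
    rw [mem_ball, Prod.dist_eq]
    rw [mem_closedBall] at hw
    rw [mem_ball] at hy
    simp only [max_lt_iff]
    constructor <;> linarith
  set O : Set (ℂ × E) := ball w0 (r / 2) ×ˢ ball y0 r with hO
  have hOo : IsOpen O := isOpen_ball.prod isOpen_ball
  have hcm : ∀ θ, circleMap w0 r θ ∈ closedBall w0 r := fun θ => circleMap_mem_closedBall _ hr0.le θ
  have hC0 : 0 ≤ C := (norm_nonneg _).trans (hb _ hp0)
  have hsep : ∀ θ, ∀ w ∈ ball w0 (r / 2), r / 2 ≤ ‖circleMap w0 r θ - w‖ := by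
    intro θ w hw
    have h3 : ‖circleMap w0 r θ - w0‖ = r := by
      simp [circleMap_sub_center, abs_of_pos hr0]
    rw [mem_ball, dist_eq_norm] at hw
    have h4 := norm_sub_le (circleMap w0 r θ - w) (w0 - w)
    rw [sub_sub_sub_cancel_right, h3] at h4
    rw [norm_sub_rev w0 w] at h4
    linarith
  have hrep : ∀ p ∈ O, u p = (2 * Real.pi * I : ℂ)⁻¹ • ∫ θ in Ioc (0 : ℝ) (2 * Real.pi),
      deriv (circleMap w0 r) θ * ((circleMap w0 r θ - p.1)⁻¹ * u (circleMap w0 r θ, p.2)) := by
    rintro ⟨w, y⟩ ⟨hw, hy⟩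
    have hd : DifferentiableOn ℂ (fun w => u (w, y)) (closedBall w0 r) := by
      intro z hz
      have h3 : z ∈ {w : ℂ | (w, y) ∈ D} := hsub z hz y hy
      exact ((h1 y z h3).differentiableAt ((hD.preimage (by fun_prop : Continuous fun w : ℂ => (w, y))).mem_nhds h3)).differentiableWithinAt
    have hdc : DiffContOnCl ℂ (fun w => u (w, y)) (ball w0 r) := by
      refine DifferentiableOn.diffContOnCl ?_
      rw [closure_ball _ hr0.ne']
      exact hd
    have h4 := hdc.two_pi_i_inv_smul_circleIntegral_sub_inv_smul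
      (ball_subset_ball (by linarith : r / 2 ≤ r) hw)
    simp only at h4 ⊢
    rw [← h4, circleIntegral, intervalIntegral.integral_of_le (by positivity)]
    simp only [smul_eq_mul]
  have hint : DifferentiableOn ℂ (fun p : ℂ × E => ∫ θ in Ioc (0 : ℝ) (2 * Real.pi),
      deriv (circleMap w0 r) θ * ((circleMap w0 r θ - p.1)⁻¹ * u (circleMap w0 r θ, p.2))) O := by
    refine HP.differentiableOn_integral (X := ℂ × E) (E := ℂ) _ _ O hOo ?_ ?_
      (fun _ => r * ((r / 2)⁻¹ * C)) ?_ ?_
    · rintro ⟨w, y⟩ ⟨hw, hy⟩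
      apply Continuous.aestronglyMeasurable
      have hc1 : Continuous (fun θ => u (circleMap w0 r θ, y)) := by
        rw [continuous_iff_continuousAt]
        intro θ
        have h3 : circleMap w0 r θ ∈ {w : ℂ | (w, y) ∈ D} := hsub _ (hcm θ) y hy
        have h4 : ContinuousAt (fun w => u (w, y)) (circleMap w0 r θ) :=
          ((h1 y _ h3).differentiableAt ((hD.preimage (by fun_prop : Continuous fun w : ℂ => (w, y))).mem_nhds h3)).continuousAt
        exact ContinuousAt.comp (f := fun θ => circleMap w0 r θ) (g := fun w => u (w, y)) h4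
          (continuous_circleMap w0 r).continuousAt
      have hc2 : Continuous (fun θ => (circleMap w0 r θ - w)⁻¹) := by
        refine Continuous.inv₀ ((continuous_circleMap w0 r).sub continuous_const) (fun θ => ?_)
        have := hsep θ w hw
        exact norm_pos_iff.1 (by linarith)
      have hc3 : Continuous (fun θ => deriv (circleMap w0 r) θ) := by
        simp only [deriv_circleMap]
        exact (continuous_circleMap 0 r).mul continuous_const
      exact hc3.mul (hc2.mul hc1)
    · intro θ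
      have hd1 : DifferentiableOn ℂ (fun p : ℂ × E => u (circleMap w0 r θ, p.2)) O := by
        refine (h2 (circleMap w0 r θ)).comp differentiableOn_snd (fun p hp => ?_)
        exact hsub _ (hcm θ) _ hp.2
      have hd2 : DifferentiableOn ℂ (fun p : ℂ × E => (circleMap w0 r θ - p.1)⁻¹) O := by
        intro p hp
        refine (DifferentiableAt.fun_inv ((differentiableAt_const _).fun_sub differentiableAt_fst)
          ?_).differentiableWithinAt
        have := hsep θ p.1 hp.1
        exact norm_pos_iff.1 (by linarith)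
      exact (hd2.fun_mul hd1).const_mul _
    · exact integrableOn_const measure_Ioc_lt_top.ne enorm_ne_top
    · rintro θ ⟨w, y⟩ ⟨hw, hy⟩
      rw [norm_mul, norm_mul, norm_inv]
      have h3 : ‖deriv (circleMap w0 r) θ‖ = r := by
        simp [deriv_circleMap, abs_of_pos hr0]
      rw [h3]
      have h4 := hsep θ w hw
      have h5 := hb _ (hsub _ (hcm θ) y hy)
      gcongr
  have hfin : DifferentiableOn ℂ u O :=
    (hint.const_smul (2 * Real.pi * I : ℂ)⁻¹).congr (fun p hp => hrep p hp)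
  exact hfin.differentiableAt (hOo.mem_nhds ⟨mem_ball_self (by positivity), mem_ball_self hr0⟩)

section

variable {D : Set (ℂ × E)} {Λ : ℂ → ℂ × E → E}

theorem Retr.UH (hr : Retr D Λ) {y : E} {w : ℂ} (hw : w ∈ {w : ℂ | (w, y) ∈ D}) : w ∈ UH :=
  hr.im (w, y) hw

variable {N : ℕ} {f : Fin N → ℂ → ℂ} {ε ε' C : ℝ} {ι : Type} {S : Finset ι} {a : ι → ℂ}
  {R : ι → Set ℂ} {χ : Option (Fin N) → ℂ → ℂ}

theorem den1' (_hr : Retr D Λ) (h : CutP f ε ε' C S a R χ) (hε' : 0 < ε') (hC : 0 ≤ C)
    (hf : ∀ i, DifferentiableOn ℂ (f i) UH) {G : ℂ × E → ℂ} (hG : DifferentiableOn ℂ G D)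
    {η : ℝ} (hη : 0 < η) (hlow : ∀ p ∈ D, (∀ i, ‖f i p.1‖ ≤ ε) → η ≤ ‖G p‖) (i : Fin N) :
    Den2 D S a R (mu1 f S R χ i) (C / ε') G (1 / η) := by
  have h0 := den1 (E := ℂ) h hε' hC hf (G := fun _ => 1) (differentiableOn_const _) one_pos
    (fun p _ _ => by simp) i
  refine ⟨h0.hμ, h0.hK0, h0.hK, h0.h0, hG, by positivity, ?_⟩
  intro ζ hζ y hy
  have hmem : ζ ∈ UR S R := by
    by_contra hno
    exact hζ (by rw [mu1, indicator_of_notMem hno])
  have hU := h.UR_sub hmem
  have hd : db (χ none) ζ ≠ 0 := by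
    intro h1
    apply hζ
    rw [mu1, indicator_of_mem hmem, h1, mul_zero]
  have h2 := hlow (ζ, y) hy (fun i => h.d_none hf hU (db_ne hd) i)
  have h3 : 0 < ‖G (ζ, y)‖ := lt_of_lt_of_le hη h2
  refine ⟨norm_pos_iff.1 h3, ?_⟩
  rw [norm_inv, inv_eq_one_div]
  exact one_div_le_one_div_of_le hη h2

theorem den2' (_hr : Retr D Λ) (h : CutP f ε ε' C S a R χ) (hε' : 0 < ε') (hC : 0 ≤ C)
    (hf : ∀ i, DifferentiableOn ℂ (f i) UH) (i j : Fin N) :
    Den2 D S a R (mu2 f S R χ i j) (2 * C / ε' ^ 2) (fun _ : ℂ × E => 1) 1 := by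
  have h0 := den2 (E := ℂ) h hε' hC hf i j
  exact ⟨h0.hμ, h0.hK0, h0.hK, h0.h0, differentiableOn_const _, zero_le_one, fun ζ _ y _ => by simp⟩

/-- **Solutions of the Bezout equation.** -/
theorem solve2 (hr : Retr D Λ) (h : CutP f ε ε' C S a R χ) (hε' : 0 < ε') (hC : 0 ≤ C)
    (hf : ∀ i, DifferentiableOn ℂ (f i) UH) (hfb : ∀ i, ∀ w ∈ UH, ‖f i w‖ ≤ 1)
    {G : ℂ × E → ℂ} (hG : DifferentiableOn ℂ G (D)) (hGb : ∀ p ∈ D, ‖G p‖ ≤ 1)
    {η : ℝ} (hη : 0 < η) (hlow : ∀ p ∈ D, (∀ i, ‖f i p.1‖ ≤ ε) → η ≤ ‖G p‖) :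
    ∃ g : Fin N → ℂ × E → ℂ, ∃ g0 : ℂ × E → ℂ, (∀ i, DifferentiableOn ℂ (g i) (D)) ∧
      DifferentiableOn ℂ g0 (D) ∧
      (∀ i, ∀ p ∈ D, ‖g i p‖ ≤ 1 / ε' + 2160 * Real.exp C * (C / ε') * (1 / η) +
        N * (2 * (2160 * Real.exp C * (2 * C / ε' ^ 2) * 1))) ∧
      (∀ p ∈ D, ‖g0 p‖ ≤ 1 / η + N * (2160 * Real.exp C * (C / ε') * (1 / η))) ∧
      ∀ p ∈ D, ∑ i, f i p.1 * g i p + G p * g0 p = 1 := by
  choose V hV1 hV2 hV3 using fun i => jones_op2 hr h.fam (den1' hr h hε' hC hf hG hη hlow i)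
  choose B hB1 hB2 hB3 using fun i j => jones_op2 hr h.fam (den2' hr h hε' hC hf i j)
  set C1 : ℝ := 2160 * Real.exp C * (C / ε') * (1 / η) with hC1
  set C2 : ℝ := 2160 * Real.exp C * (2 * C / ε' ^ 2) * 1 with hC2
  have hC10 : 0 ≤ C1 := by positivity
  have hC20 : 0 ≤ C2 := by positivity
  -- zeros of `G`
  have hGne : ∀ p ∈ D, χ none p.1 ≠ 0 → η ≤ ‖G p‖ := by
    intro p hp hχ
    exact hlow p hp (h.small p.1 (hr.im _ hp) hχ)
  have hfne : ∀ i, ∀ w ∈ UH, χ (some i) w ≠ 0 → f i w ≠ 0 := by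
    intro i w hw hχ
    exact norm_pos_iff.1 (lt_of_lt_of_le hε' (h.large w hw i hχ))
  have hslice : ∀ y : E, DifferentiableOn ℂ (fun w => G (w, y)) {w : ℂ | (w, y) ∈ D} := by
    intro y w hw
    have h1 : DifferentiableAt ℂ G (w, y) := hG.differentiableAt (hr.op.mem_nhds hw)
    have h2 : DifferentiableAt ℂ (fun w : ℂ => (w, y)) w :=
      differentiableAt_id.prodMk (differentiableAt_const _)
    exact (DifferentiableAt.comp w h1 h2).differentiableWithinAt
  have hslice2 : ∀ w : ℂ, DifferentiableOn ℂ (fun y : E => G (w, y)) {y | (w, y) ∈ D} := by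
    intro w y hy
    have h1 : DifferentiableAt ℂ G (w, y) := hG.differentiableAt (hr.op.mem_nhds hy)
    have h2 : DifferentiableAt ℂ (fun y : E => (w, y)) y :=
      (differentiableAt_const _).prodMk differentiableAt_id
    exact (DifferentiableAt.comp y h1 h2).differentiableWithinAt
  have hG0 : ∀ y : E, ∀ w ∈ {w : ℂ | (w, y) ∈ D}, G (w, y) = 0 → ∀ᶠ z in 𝓝 w, χ none z = 0 := by
    intro y w hw h0
    have hc : ContinuousAt (fun w => G (w, y)) w :=
      ((hslice y).differentiableAt ((slice_open hr y).mem_nhds hw)).continuousAt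
    have h1 : ∀ᶠ z in 𝓝 w, ‖G (z, y)‖ < η :=
      hc.norm.eventually (gt_mem_nhds (by
        change ‖G (w, y)‖ < η
        rw [h0, norm_zero]; exact hη))
    filter_upwards [h1, (slice_open hr y).mem_nhds hw] with z hz1 hz2
    by_contra hne
    exact absurd (hGne (z, y) hz2 hne) (not_le.2 hz1)
  have hf0 : ∀ i, ∀ w ∈ UH, f i w = 0 → ∀ᶠ z in 𝓝 w, χ (some i) z = 0 := by
    intro i w hw h0
    have hc : ContinuousAt (f i) w := ((hf i).differentiableAt (isOpen_UH.mem_nhds hw)).continuousAt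
    have h1 : ∀ᶠ z in 𝓝 w, ‖f i z‖ < ε' :=
      hc.norm.eventually (gt_mem_nhds (by
        change ‖f i w‖ < ε'
        rw [h0, norm_zero]; exact hε'))
    filter_upwards [h1, isOpen_UH.mem_nhds hw] with z hz1 hz2
    by_contra hne
    exact absurd (h.large z hz2 i hne) (not_le.2 hz1)
  -- the functions
  set g0 : ℂ × E → ℂ := fun p => χ none p.1 / G p + ∑ i, -f i p.1 * V i p with hg0
  set g : Fin N → ℂ × E → ℂ := fun i p => χ (some i) p.1 / f i p.1 + G p * V i p +
    ∑ j, (f j p.1 * B j i p + -f j p.1 * B i j p) with hg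
  have hχle : ∀ o, ∀ w ∈ UH, ∀ (c : ℂ) (κ : ℝ), 0 < κ → (χ o w ≠ 0 → κ ≤ ‖c‖) →
      ‖χ o w / c‖ ≤ 1 / κ := by
    intro o w hw c κ hκ hc
    by_cases hχ : χ o w = 0
    · rw [hχ, zero_div, norm_zero]
      positivity
    · rw [norm_div]
      have h1 := hc hχ
      have h2 := h.bd o w hw
      gcongr
  have hg0b : ∀ p ∈ D, ‖g0 p‖ ≤ 1 / η + N * C1 := by
    intro p hp
    refine (norm_add_le _ _).trans (add_le_add ?_ ?_)
    · exact hχle none p.1 (hr.im _ hp) (G p) η hη (hGne p hp)
    · refine (norm_sum_le _ _).trans ?_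
      have h1 : ∀ i ∈ Finset.univ, ‖-f i p.1 * V i p‖ ≤ C1 := by
        intro i _
        rw [norm_mul, norm_neg]
        have h2 := hfb i p.1 (hr.im _ hp)
        have h3 := hV1 i p hp
        calc ‖f i p.1‖ * ‖V i p‖ ≤ 1 * C1 := by gcongr
          _ = C1 := one_mul _
      refine (Finset.sum_le_sum h1).trans (le_of_eq ?_)
      simp
  have hgb : ∀ i, ∀ p ∈ D, ‖g i p‖ ≤ 1 / ε' + C1 + N * (2 * C2) := by
    intro i p hp
    refine (norm_add_le _ _).trans (add_le_add ((norm_add_le _ _).trans (add_le_add ?_ ?_)) ?_)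
    · exact hχle (some i) p.1 (hr.im _ hp) (f i p.1) ε' hε' (h.large p.1 (hr.im _ hp) i)
    · rw [norm_mul]
      have h2 := hGb p hp
      have h3 := hV1 i p hp
      calc ‖G p‖ * ‖V i p‖ ≤ 1 * C1 := by gcongr
        _ = C1 := one_mul _
    · refine (norm_sum_le _ _).trans ?_
      have h1 : ∀ j ∈ Finset.univ, ‖f j p.1 * B j i p + -f j p.1 * B i j p‖ ≤ 2 * C2 := by
        intro j _
        refine (norm_add_le _ _).trans ?_
        rw [norm_mul, norm_mul, norm_neg]
        have h2 := hfb j p.1 (hr.im _ hp)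
        have h3 := hB1 j i p hp
        have h4 := hB1 i j p hp
        calc ‖f j p.1‖ * ‖B j i p‖ + ‖f j p.1‖ * ‖B i j p‖ ≤ 1 * C2 + 1 * C2 := by gcongr
          _ = 2 * C2 := by ring
      refine (Finset.sum_le_sum h1).trans (le_of_eq ?_)
      simp
  refine ⟨g, g0, ?_, ?_, hgb, hg0b, ?_⟩
  · intro i
    refine osgood2 hr.op (hgb i) ?_ ?_
    · intro y
      change DifferentiableOn ℂ (fun w => g i (w, y)) {w : ℂ | (w, y) ∈ D}
      obtain ⟨hc1, hc2⟩ := inv_C1 (slice_open hr y) (fun w hw => hr.UH hw)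
        ((hf i).mono (fun w hw => hr.UH hw)) (h.smooth (some i))
        (fun w hw => hf0 i w (hr.UH hw))
      have hw1 : WD {w : ℂ | (w, y) ∈ D} (fun w => χ (some i) w / f i w) (fun w => db (χ (some i)) w / f i w) :=
        (WD.of_C1 (slice_open hr y) hc1).congr (slice_open hr y) (fun _ _ => rfl)
          (fun w hw => (hc2 w hw).symm)
      have hw2 := (hV2 i y).mul_holo (slice_open hr y) (hslice y)
      have hw3 := WD.sum (slice_open hr y) (Finset.univ : Finset (Fin N))
        (V := fun j w => f j w * B j i (w, y) + -f j w * B i j (w, y))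
        (ν := fun j w => f j w * (mu2 f S R χ j i w * (1 : ℂ)⁻¹) +
          -f j w * (mu2 f S R χ i j w * (1 : ℂ)⁻¹))
        (fun j _ => ((hB2 j i y).mul_holo (slice_open hr y)
          ((hf j).mono (fun w hw => hr.UH hw))).add (slice_open hr y)
          ((hB2 i j y).mul_holo (slice_open hr y) ((hf j).mono (fun w hw => hr.UH hw)).neg))
      refine ((hw1.add (slice_open hr y) hw2).add (slice_open hr y) hw3).holo (slice_open hr y) ?_
      intro w hw
      have hwU := hr.UH hw
      have e1 : G (w, y) * (mu1 f S R χ i w * (G (w, y))⁻¹) =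
          starRingEnd ℂ (f i w) / (DD f w : ℂ) * db (χ none) w := by
        rw [mu1_eq h hwU]
        by_cases hd : db (χ none) w = 0
        · rw [hd]
          simp
        · have h2 := hlow (w, y) hw (fun i => h.d_none hf hwU (db_ne hd) i)
          have h3 : G (w, y) ≠ 0 := norm_pos_iff.1 (lt_of_lt_of_le hη h2)
          field_simp
      have e2 : ∑ j, (f j w * (mu2 f S R χ j i w * (1 : ℂ)⁻¹) +
          -f j w * (mu2 f S R χ i j w * (1 : ℂ)⁻¹)) = -ee f χ i w := by
        simp only [inv_one, mul_one, mu2_eq h hε' hf hwU]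
        rw [Finset.sum_add_distrib]
        have h1 : ∑ j, f j w * (starRingEnd ℂ (f i w) / (DD f w : ℂ) * ee f χ j w) = 0 := by
          have h2 : ∀ j, f j w * (starRingEnd ℂ (f i w) / (DD f w : ℂ) * ee f χ j w) =
              (starRingEnd ℂ (f i w) / (DD f w : ℂ)) * (f j w * ee f χ j w) := fun j => by ring
          simp only [h2]
          rw [← Finset.mul_sum, sum_ee h hε' hf hwU, mul_zero]
        have h3 : ∑ j, -f j w * (starRingEnd ℂ (f j w) / (DD f w : ℂ) * ee f χ i w) = -ee f χ i w := by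
          by_cases he : ee f χ i w = 0
          · rw [he]
            simp
          · have h4 := (ee_ne h hε' hf hwU he).1
            have h5 : (DD f w : ℂ) ≠ 0 := by
              have : 0 < DD f w := lt_of_lt_of_le (by positivity) h4
              exact_mod_cast this.ne'
            have h6 : ∀ j, -f j w * (starRingEnd ℂ (f j w) / (DD f w : ℂ) * ee f χ i w) =
                (f j w * starRingEnd ℂ (f j w)) * (-((DD f w : ℂ)⁻¹ * ee f χ i w)) := fun j => by ring
            simp only [h6]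
            rw [← Finset.sum_mul, conj_sum, mul_neg, ← mul_assoc, mul_inv_cancel₀ h5, one_mul]
        rw [h1, h3, zero_add]
      rw [e1, e2]
      unfold ee
      ring
    · intro w
      have hV := hV3 i w
      have hsum : DifferentiableOn ℂ (fun y : E => ∑ j, (f j w * B j i (w, y) +
          -f j w * B i j (w, y))) {y | (w, y) ∈ D} :=
        DifferentiableOn.fun_sum (fun j _ => ((hB3 j i w).const_mul _).fun_add
          ((hB3 i j w).const_mul _))
      exact ((differentiableOn_const (χ (some i) w / f i w)).fun_add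
        ((hslice2 w).fun_mul hV)).fun_add hsum
  · refine osgood2 hr.op hg0b ?_ ?_
    · intro y
      change DifferentiableOn ℂ (fun w => g0 (w, y)) {w : ℂ | (w, y) ∈ D}
      obtain ⟨hc1, hc2⟩ := inv_C1 (slice_open hr y) (fun w hw => hr.UH hw) (hslice y)
        (h.smooth none) (hG0 y)
      have hw1 : WD {w : ℂ | (w, y) ∈ D} (fun w => χ none w / G (w, y)) (fun w => db (χ none) w / G (w, y)) :=
        (WD.of_C1 (slice_open hr y) hc1).congr (slice_open hr y) (fun _ _ => rfl)
          (fun w hw => (hc2 w hw).symm)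
      have hw3 := WD.sum (slice_open hr y) (Finset.univ : Finset (Fin N))
        (V := fun i w => -f i w * V i (w, y))
        (ν := fun i w => -f i w * (mu1 f S R χ i w * (G (w, y))⁻¹))
        (fun i _ => (hV2 i y).mul_holo (slice_open hr y) ((hf i).mono (fun w hw => hr.UH hw)).neg)
      refine (hw1.add (slice_open hr y) hw3).holo (slice_open hr y) ?_
      intro w hw
      have hwU := hr.UH hw
      simp only [mu1_eq h hwU]
      have h1 : ∀ i, -f i w * (starRingEnd ℂ (f i w) / (DD f w : ℂ) * db (χ none) w * (G (w, y))⁻¹) =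
          (f i w * (starRingEnd ℂ (f i w) / (DD f w : ℂ) * db (χ none) w)) * (-(G (w, y))⁻¹) :=
        fun i => by ring
      simp only [h1]
      rw [← Finset.sum_mul, sum_mu1 h hε' hf hwU]
      ring
    · intro w
      have hsum : DifferentiableOn ℂ (fun y : E => ∑ i, -f i w * V i (w, y))
          {y | (w, y) ∈ D} :=
        DifferentiableOn.fun_sum (fun i _ => (hV3 i w).const_mul _)
      have h1 : DifferentiableOn ℂ (fun y : E => χ none w / G (w, y)) {y | (w, y) ∈ D} := by
        by_cases hχ : χ none w = 0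
        · simp only [hχ, zero_div]
          exact differentiableOn_const _
        · simp only [div_eq_mul_inv]
          refine DifferentiableOn.const_mul (DifferentiableOn.fun_inv (hslice2 w) ?_) _
          intro y hy
          exact norm_pos_iff.1 (lt_of_lt_of_le hη (hGne (w, y) hy hχ))
      exact h1.fun_add hsum
  · intro p hp
    have hw := hr.im _ hp
    have e1 : G p * (χ none p.1 / G p) = χ none p.1 := by
      by_cases hχ : χ none p.1 = 0
      · rw [hχ, zero_div, mul_zero]
      · have h3 : G p ≠ 0 := norm_pos_iff.1 (lt_of_lt_of_le hη (hGne p hp hχ))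
        field_simp
    have e2 : ∀ i, f i p.1 * (χ (some i) p.1 / f i p.1) = χ (some i) p.1 := by
      intro i
      by_cases hχ : χ (some i) p.1 = 0
      · rw [hχ, zero_div, mul_zero]
      · have h3 := hfne i p.1 hw hχ
        field_simp
    have e3 : ∀ i, f i p.1 * g i p = χ (some i) p.1 + G p * (f i p.1 * V i p) +
        ∑ j, (f i p.1 * f j p.1 * B j i p - f j p.1 * f i p.1 * B i j p) := by
      intro i
      simp only [hg]
      rw [mul_add, mul_add, e2, Finset.mul_sum]
      congr 1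
      · ring
      · refine Finset.sum_congr rfl (fun j _ => ?_)
        ring
    have e4 : ∑ i, ∑ j, (f i p.1 * f j p.1 * B j i p - f j p.1 * f i p.1 * B i j p) = 0 := by
      simp only [Finset.sum_sub_distrib]
      rw [sub_eq_zero]
      exact Finset.sum_comm
    have e5 : G p * g0 p = χ none p.1 - G p * ∑ i, f i p.1 * V i p := by
      simp only [hg0]
      rw [mul_add, e1, sub_eq_add_neg, ← mul_neg, ← Finset.sum_neg_distrib]
      congr 2
      refine Finset.sum_congr rfl (fun i _ => ?_)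
      ring
    have e6 := h.sum p.1 hw
    rw [Fintype.sum_option] at e6
    simp only [e3]
    rw [Finset.sum_add_distrib, Finset.sum_add_distrib, e4, e5, ← Finset.mul_sum]
    linear_combination e6

end

end Pool.Agent.H788R3.Cor2
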