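import Mathlib
import Pool.Agent.H720R2.HP.CutN
import Pool.Agent.H788R3.Cor2.Asm2

/-!
The corona theorem for one-variable functions and one arbitrary function on domains over the half
plane, resp. over simply connected plane domains, with holomorphic retractions onto the slices.
-/

set_option autoImplicit false
set_option linter.unusedSectionVars false

open MeasureTheory Metric Set Filter Topology Complex
open scoped ContDiff

namespace Pool.Agent.H788R3.Cor2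

open Pool.Agent.H720R2 Pool.Agent.H720R2.HP

/-- corona theorem on domains over the half plane with retractions, for nice `f i` -/
def Siegel2 (N : ℕ) (δ C : ℝ) : Prop :=
  ∀ (E : Type) [NormedAddCommGroup E] [NormedSpace ℂ E] [FiniteDimensional ℂ E]
    (D : Set (ℂ × E)) (Λ : ℂ → ℂ × E → E), Retr D Λ → ∀
    (f : Fin N → ℂ → ℂ) (η : ℝ), 0 < η →
    (∀ i, DifferentiableOn ℂ (f i) {w : ℂ | -η < w.im}) →
    (∀ i, ∀ w : ℂ, 0 ≤ w.im → ‖f i w‖ ≤ 1) →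
    (∀ i, ∃ c : ℂ, Tendsto (f i) (Bornology.cobounded ℂ ⊓ 𝓟 {w : ℂ | 0 ≤ w.im}) (𝓝 c)) →
    ∀ G : ℂ × E → ℂ, DifferentiableOn ℂ G D →
    (∀ p ∈ D, ‖G p‖ ≤ 1) →
    (∀ p ∈ D, (∀ i, ‖f i p.1‖ ≤ δ / 2) → δ ≤ ‖G p‖) →
    ∃ (g : Fin N → ℂ × E → ℂ) (g₀ : ℂ × E → ℂ),
      (∀ i, DifferentiableOn ℂ (g i) D) ∧
      DifferentiableOn ℂ g₀ D ∧
      (∀ i, ∀ p ∈ D, ‖g i p‖ ≤ C) ∧
      (∀ p ∈ D, ‖g₀ p‖ ≤ C) ∧
      ∀ p ∈ D, ∑ i, f i p.1 * g i p + G p * g₀ p = 1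

theorem siegel2 (N : ℕ) {δ : ℝ} (hδ : 0 < δ) (hδ1 : δ ≤ 1) : ∃ C : ℝ, Siegel2 N δ C := by
  obtain ⟨ε', C, hε', hC, hcut⟩ := cutN N (ε := δ / 2) (by positivity) (by linarith)
  refine ⟨max (1 / ε' + 2160 * Real.exp C * (C / ε') * (1 / δ) +
        N * (2 * (2160 * Real.exp C * (2 * C / ε' ^ 2) * 1)))
        (1 / δ + N * (2160 * Real.exp C * (C / ε') * (1 / δ))), ?_⟩
  intro E _ _ _ D Λ hr f η hη hf hfb hlim G hG hGb hlow
  obtain ⟨S, a, R, χ, hP⟩ := hcut f η (fun i => ⟨hη, hf i, hfb i⟩) hlim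
  obtain ⟨g, g0, h1, h2, h3, h4, h5⟩ := solve2 hr hP hε' hC.le
    (fun i => (hf i).mono (fun w hw => by
      change -η < w.im
      have : (0 : ℝ) < w.im := hw
      linarith)) (fun i w hw => hfb i w (le_of_lt hw)) hG hGb hδ hlow
  exact ⟨g, g0, h1, h2, fun i p hp => (h3 i p hp).trans (le_max_left _ _),
    fun p hp => (h4 p hp).trans (le_max_right _ _), h5⟩

variable {E : Type} [NormedAddCommGroup E] [NormedSpace ℂ E] [FiniteDimensional ℂ E]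

/-- `D` is a domain over `U` and `Λ c` is a holomorphic retraction of `D` onto its slice over `c` -/
structure RetrU (U : Set ℂ) (D : Set (ℂ × E)) (Λ : ℂ → ℂ × E → E) : Prop where
  op : IsOpen D
  sub : ∀ p ∈ D, p.1 ∈ U
  mem : ∀ c ∈ U, ∀ p ∈ D, (c, Λ c p) ∈ D
  self : ∀ (c : ℂ) (y : E), (c, y) ∈ D → Λ c (c, y) = y
  diff : ∀ c ∈ U, ∀ p ∈ D, DifferentiableAt ℂ (Λ c) p
  cont : ∀ y : E, ContinuousOn (fun q : ℂ × ℂ => Λ q.1 (q.2, y)) {q | q.1 ∈ U ∧ (q.2, y) ∈ D}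

/-- the one-variable Cayley transform followed by a dilation -/
noncomputable def cy (r : ℝ) (w : ℂ) : ℂ := (r : ℂ) * ((w - I) / (w + I))

theorem cy_mem {r : ℝ} (hr0 : 0 < r) (hr1 : r < 1) {w : ℂ} (hw : -((1 - r ^ 2) / 16) < w.im) :
    cy r w ∈ ball (0 : ℂ) 1 := by
  rw [mem_ball_zero_iff]
  exact TB.cay_small hr0 hr1 hw

theorem cy_diff {r : ℝ} (hr0 : 0 < r) (hr1 : r < 1) :
    DifferentiableOn ℂ (cy r) {w : ℂ | -((1 - r ^ 2) / 16) < w.im} := by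
  have h2 : DifferentiableOn ℂ (fun w : ℂ => w + I) {w : ℂ | -((1 - r ^ 2) / 16) < w.im} := by
    fun_prop
  have h3 : DifferentiableOn ℂ (fun w : ℂ => w - I) {w : ℂ | -((1 - r ^ 2) / 16) < w.im} := by
    fun_prop
  refine (h3.div h2 ?_).const_mul _
  intro w hw
  have hw' : -((1 - r ^ 2) / 16) < w.im := hw
  exact TB.add_I_ne (by nlinarith)

/-- the inverse map -/
noncomputable def yc (r : ℝ) (t : ℂ) : ℂ := I * (1 + t / r) / (1 - t / r)

theorem one_sub_ne {r : ℝ} (hr0 : 0 < r) {t : ℂ} (ht : ‖t‖ < r) : 1 - t / (r : ℂ) ≠ 0 := by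
  intro h
  have h1 : t / (r : ℂ) = 1 := (sub_eq_zero.1 h).symm
  have h2 : ‖t / (r : ℂ)‖ = ‖t‖ / r := by
    rw [norm_div, Complex.norm_real, Real.norm_of_nonneg hr0.le]
  rw [h1, norm_one] at h2
  have h3 : ‖t‖ / r < 1 := (div_lt_one hr0).2 ht
  linarith

theorem yc_im {r : ℝ} (hr0 : 0 < r) {t : ℂ} (ht : ‖t‖ < r) : 0 < (yc r t).im := by
  set s : ℂ := t / (r : ℂ) with hs
  have h1 : ‖s‖ < 1 := by
    rw [hs, norm_div, Complex.norm_real, Real.norm_of_nonneg hr0.le]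
    exact (div_lt_one hr0).2 ht
  have h2 : 1 - s ≠ 0 := one_sub_ne hr0 ht
  have h4 : 0 < normSq (1 - s) := normSq_pos.2 h2
  have h5 : (yc r t).im = (1 - ‖s‖ ^ 2) / normSq (1 - s) := by
    rw [← Complex.normSq_eq_norm_sq, normSq_apply s]
    change (I * (1 + s) / (1 - s)).im = _
    rw [Complex.div_im]
    simp
    ring
  rw [h5]
  apply div_pos _ h4
  nlinarith [norm_nonneg s]

theorem cy_yc {r : ℝ} (hr0 : 0 < r) {t : ℂ} (ht : ‖t‖ < r) : cy r (yc r t) = t := by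
  have h2 := one_sub_ne hr0 ht
  have hr : (r : ℂ) ≠ 0 := by exact_mod_cast hr0.ne'
  have h3 : (yc r t) + I = 2 * I / (1 - t / r) := by
    unfold yc
    rw [eq_div_iff h2, add_mul, div_mul_cancel₀ _ h2]
    ring
  have h4 : (yc r t) - I = 2 * I * (t / r) / (1 - t / r) := by
    unfold yc
    rw [eq_div_iff h2, sub_mul, div_mul_cancel₀ _ h2]
    ring
  unfold cy
  rw [h3, h4]
  have := I_ne_zero
  rw [div_div_div_cancel_right₀ h2]
  field_simp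

theorem yc_diff {r : ℝ} (hr0 : 0 < r) {t : ℂ} (ht : ‖t‖ < r) : DifferentiableAt ℂ (yc r) t := by
  have h2 := one_sub_ne hr0 ht
  unfold yc
  refine DifferentiableAt.fun_div ?_ ?_ h2
  · fun_prop
  · fun_prop

end Pool.Agent.H788R3.Cor2
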