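import Mathlib
import Pool.Agent.H788R3.Cor2.Sieg2
import Pool.Agent.H720R2.Cor.Lim
import Pool.Agent.Helper202.Riemann

/-!
From the half plane to simply connected plane domains as base.
-/

set_option autoImplicit false
set_option linter.unusedSectionVars false

open MeasureTheory Metric Set Filter Topology Complex
open scoped ContDiff

namespace Pool.Agent.H788R3.Cor2

open Pool.Agent.H720R2 Pool.Agent.H720R2.HP

variable {E : Type} [NormedAddCommGroup E] [NormedSpace ℂ E] [FiniteDimensional ℂ E]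

/-- the pulled back domain -/
def Dr (D : Set (ℂ × E)) (h : ℂ → ℂ) (r : ℝ) : Set (ℂ × E) :=
  {p | 0 < p.1.im ∧ (h (cy r p.1), p.2) ∈ D}

/-- the pulled back retractions -/
noncomputable def Lr (Λ : ℂ → ℂ × E → E) (h : ℂ → ℂ) (r : ℝ) (ζ : ℂ) (p : ℂ × E) : E :=
  Λ (h (cy r ζ)) (h (cy r p.1), p.2)

theorem cy_mem' {r : ℝ} (hr0 : 0 < r) (hr1 : r < 1) {w : ℂ} (hw : 0 < w.im) :
    cy r w ∈ ball (0 : ℂ) 1 := cy_mem hr0 hr1 (by nlinarith)

theorem cy_diffAt {r : ℝ} (hr0 : 0 < r) (hr1 : r < 1) {w : ℂ} (hw : 0 < w.im) :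
    DifferentiableAt ℂ (cy r) w := by
  have h1 : w ∈ {w : ℂ | -((1 - r ^ 2) / 16) < w.im} := by
    change -((1 - r ^ 2) / 16) < w.im
    nlinarith
  refine (cy_diff hr0 hr1).differentiableAt ?_
  exact (isOpen_lt continuous_const Complex.continuous_im).mem_nhds h1

theorem hcy_diffAt {h : ℂ → ℂ} (hh : DifferentiableOn ℂ h (ball 0 1)) {r : ℝ} (hr0 : 0 < r)
    (hr1 : r < 1) {w : ℂ} (hw : 0 < w.im) : DifferentiableAt ℂ (fun w => h (cy r w)) w := by
  have h1 : DifferentiableAt ℂ h (cy r w) :=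
    (hh _ (cy_mem' hr0 hr1 hw)).differentiableAt (isOpen_ball.mem_nhds (cy_mem' hr0 hr1 hw))
  exact DifferentiableAt.comp w h1 (cy_diffAt hr0 hr1 hw)

theorem retr_r {U : Set ℂ} {D : Set (ℂ × E)} {Λ : ℂ → ℂ × E → E} (hR : RetrU U D Λ)
    {h : ℂ → ℂ} (hh : DifferentiableOn ℂ h (ball 0 1)) (hm : MapsTo h (ball 0 1) U)
    {r : ℝ} (hr0 : 0 < r) (hr1 : r < 1) : Retr (Dr D h r) (Lr Λ h r) := by
  have hc : ContinuousOn (fun p : ℂ × E => (h (cy r p.1), p.2)) {p | 0 < p.1.im} := by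
    intro p hp
    have h1 : ContinuousAt (fun w => h (cy r w)) p.1 := (hcy_diffAt hh hr0 hr1 hp).continuousAt
    have h2 : ContinuousAt (fun p : ℂ × E => h (cy r p.1)) p :=
      ContinuousAt.comp (f := fun p : ℂ × E => p.1) h1 continuousAt_fst
    exact (h2.prodMk continuousAt_snd).continuousWithinAt
  refine ⟨?_, fun p hp => hp.1, ?_, ?_, ?_, ?_⟩
  · have h1 : IsOpen {p : ℂ × E | 0 < p.1.im} :=
      isOpen_lt continuous_const (Complex.continuous_im.comp continuous_fst)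
    exact hc.isOpen_inter_preimage h1 hR.op
  · intro ζ hζ p hp
    exact ⟨hζ, hR.mem _ (hm (cy_mem' hr0 hr1 hζ)) _ hp.2⟩
  · intro ζ y hy
    exact hR.self _ _ hy.2
  · intro ζ hζ p hp
    have h1 : DifferentiableAt ℂ (fun w => h (cy r w)) p.1 := hcy_diffAt hh hr0 hr1 hp.1
    have h2 : DifferentiableAt ℂ (fun p : ℂ × E => h (cy r p.1)) p :=
      DifferentiableAt.comp (g := fun w => h (cy r w)) (f := fun p : ℂ × E => p.1) p h1
        differentiableAt_fst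
    have h3 : DifferentiableAt ℂ (fun p : ℂ × E => (h (cy r p.1), p.2)) p :=
      h2.prodMk differentiableAt_snd
    have h4 := hR.diff (h (cy r ζ)) (hm (cy_mem' hr0 hr1 hζ)) _ hp.2
    exact DifferentiableAt.comp (g := Λ (h (cy r ζ))) p h4 h3
  · intro y
    have h1 : ContinuousOn (fun q : ℂ × ℂ => (h (cy r q.1), h (cy r q.2)))
        {q : ℂ × ℂ | 0 < q.1.im ∧ (q.2, y) ∈ Dr D h r} := by
      intro q hq
      have h1 : ContinuousAt (fun w => h (cy r w)) q.1 := (hcy_diffAt hh hr0 hr1 hq.1).continuousAt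
      have h2 : ContinuousAt (fun w => h (cy r w)) q.2 :=
        (hcy_diffAt hh hr0 hr1 hq.2.1).continuousAt
      have h3 : ContinuousAt (fun q : ℂ × ℂ => h (cy r q.1)) q :=
        ContinuousAt.comp (f := fun q : ℂ × ℂ => q.1) h1 continuousAt_fst
      have h4 : ContinuousAt (fun q : ℂ × ℂ => h (cy r q.2)) q :=
        ContinuousAt.comp (f := fun q : ℂ × ℂ => q.2) h2 continuousAt_snd
      exact (h3.prodMk h4).continuousWithinAt
    refine ContinuousOn.comp (g := fun q : ℂ × ℂ => Λ q.1 (q.2, y)) (hR.cont y) h1 ?_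
    intro q hq
    exact ⟨hm (cy_mem' hr0 hr1 hq.1), hq.2.2⟩

/-- solutions on the part of the domain over a compact part of the base -/
theorem solve_rho {N : ℕ} {δ C : ℝ} (hδ : 0 < δ) (H : Siegel2 N δ C) {U : Set ℂ} (hU : IsOpen U)
    {D : Set (ℂ × E)} {Λ : ℂ → ℂ × E → E} (hR : RetrU U D Λ)
    {h ψ : ℂ → ℂ} (hh : DifferentiableOn ℂ h (ball 0 1)) (hm : MapsTo h (ball 0 1) U)
    (hψ : DifferentiableOn ℂ ψ U) (_hψm : MapsTo ψ U (ball 0 1)) (hinv : ∀ z ∈ U, h (ψ z) = z)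
    (f : Fin N → ℂ → ℂ) (hf : ∀ i, DifferentiableOn ℂ (f i) U)
    (hfb : ∀ i, ∀ z ∈ U, ‖f i z‖ ≤ 1)
    (G : ℂ × E → ℂ) (hG : DifferentiableOn ℂ G D) (hGb : ∀ q ∈ D, ‖G q‖ ≤ 1)
    (hlow : ∀ q ∈ D, (∀ i, ‖f i q.1‖ < δ) → δ ≤ ‖G q‖) {r : ℝ} (hr0 : 0 < r) (hr1 : r < 1) :
    ∃ (g : Fin N → ℂ × E → ℂ) (g₀ : ℂ × E → ℂ),
      (∀ i, DifferentiableOn ℂ (g i) {q ∈ D | ‖ψ q.1‖ < r}) ∧
      DifferentiableOn ℂ g₀ {q ∈ D | ‖ψ q.1‖ < r} ∧
      (∀ i, ∀ q ∈ {q ∈ D | ‖ψ q.1‖ < r}, ‖g i q‖ ≤ C) ∧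
      (∀ q ∈ {q ∈ D | ‖ψ q.1‖ < r}, ‖g₀ q‖ ≤ C) ∧
      ∀ q ∈ {q ∈ D | ‖ψ q.1‖ < r}, ∑ i, f i q.1 * g i q + G q * g₀ q = 1 := by
  have hr2 : r ^ 2 < 1 := by nlinarith
  have hfd : ∀ i, DifferentiableOn ℂ (fun w => f i (h (cy r w))) {w : ℂ | -((1 - r ^ 2) / 16) < w.im} := by
    intro i
    have h1 : MapsTo (cy r) {w : ℂ | -((1 - r ^ 2) / 16) < w.im} (ball 0 1) := fun w hw =>
      cy_mem hr0 hr1 hw
    exact (hf i).comp (hh.comp (cy_diff hr0 hr1) h1) (fun w hw => hm (h1 hw))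
  obtain ⟨g, g₀, hg, hg0, hgb, hg0b, hid⟩ := H E (Dr D h r) (Lr Λ h r) (retr_r hR hh hm hr0 hr1)
    (fun i w => f i (h (cy r w))) ((1 - r ^ 2) / 16) (by linarith) hfd
    (by
      intro i w hw
      apply hfb
      apply hm
      exact cy_mem hr0 hr1 (by linarith))
    (by
      intro i
      refine ⟨f i (h ((r : ℂ) * 1)), ?_⟩
      refine Tendsto.mono_left ?_ inf_le_left
      have hmem : (r : ℂ) * 1 ∈ ball (0 : ℂ) 1 := by
        rw [mem_ball_zero_iff, mul_one, Complex.norm_real, Real.norm_of_nonneg hr0.le]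
        exact hr1
      have hc0 : ContinuousAt h ((r : ℂ) * 1) :=
        (hh.differentiableAt (isOpen_ball.mem_nhds hmem)).continuousAt
      have hc : ContinuousAt (f i) (h ((r : ℂ) * 1)) :=
        ((hf i).differentiableAt (hU.mem_nhds (hm hmem))).continuousAt
      exact hc.tendsto.comp (hc0.tendsto.comp (TB.cay_tendsto.const_mul (r : ℂ))))
    (fun p => G (h (cy r p.1), p.2))
    (by
      intro p hp
      have h1 : DifferentiableAt ℂ (fun w => h (cy r w)) p.1 := hcy_diffAt hh hr0 hr1 hp.1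
      have h2 : DifferentiableAt ℂ (fun p : ℂ × E => h (cy r p.1)) p :=
        DifferentiableAt.comp (g := fun w => h (cy r w)) (f := fun p : ℂ × E => p.1) p h1
          differentiableAt_fst
      have h3 : DifferentiableAt ℂ (fun p : ℂ × E => (h (cy r p.1), p.2)) p :=
        h2.prodMk differentiableAt_snd
      have h4 : DifferentiableAt ℂ G (h (cy r p.1), p.2) :=
        (hG _ hp.2).differentiableAt (hR.op.mem_nhds hp.2)
      exact (DifferentiableAt.comp (g := G) p h4 h3).differentiableWithinAt)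
    (fun p hp => hGb _ hp.2)
    (by
      intro p hp hi
      refine hlow _ hp.2 (fun i => ?_)
      have := hi i
      linarith)
  set T : ℂ × E → ℂ × E := fun q => (yc r (ψ q.1), q.2) with hT
  have hTm : MapsTo T {q ∈ D | ‖ψ q.1‖ < r} (Dr D h r) := by
    rintro q ⟨hq, hq2⟩
    refine ⟨yc_im hr0 hq2, ?_⟩
    change (h (cy r (yc r (ψ q.1))), q.2) ∈ D
    rw [cy_yc hr0 hq2, hinv _ (hR.sub _ hq)]
    exact hq
  have hTd : DifferentiableOn ℂ T {q ∈ D | ‖ψ q.1‖ < r} := by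
    rintro q ⟨hq, hq2⟩
    have h1 : DifferentiableAt ℂ ψ q.1 := (hψ _ (hR.sub _ hq)).differentiableAt (hU.mem_nhds (hR.sub _ hq))
    have h2 : DifferentiableAt ℂ (fun z => yc r (ψ z)) q.1 :=
      DifferentiableAt.comp q.1 (yc_diff hr0 hq2) h1
    have h3 : DifferentiableAt ℂ (fun q : ℂ × E => yc r (ψ q.1)) q :=
      DifferentiableAt.comp (g := fun z => yc r (ψ z)) (f := fun p : ℂ × E => p.1) q h2
        differentiableAt_fst
    exact (h3.prodMk differentiableAt_snd).differentiableWithinAt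
  refine ⟨fun i q => g i (T q), fun q => g₀ (T q), fun i => (hg i).comp hTd hTm,
    hg0.comp hTd hTm, fun i q hq => hgb i _ (hTm hq), fun q hq => hg0b _ (hTm hq),
    fun q hq => ?_⟩
  have h2 := hid _ (hTm hq)
  have h3 : h (cy r (T q).1) = q.1 := by
    change h (cy r (yc r (ψ q.1))) = q.1
    rw [cy_yc hr0 hq.2, hinv _ (hR.sub _ hq.1)]
  simp only [h3] at h2
  exact h2

/-- gluing solutions on an exhaustion -/
theorem exhaust {X : Type} [NormedAddCommGroup X] [NormedSpace ℂ X] {N : ℕ} {C : ℝ}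
    (B : ℕ → Set X) (hB : ∀ m, IsOpen (B m)) (hmono : Monotone B)
    (F : Fin N → X → ℂ) (G : X → ℂ)
    (hsol : ∀ m, ∃ (g : Fin N → X → ℂ) (g₀ : X → ℂ),
      (∀ i, DifferentiableOn ℂ (g i) (B m)) ∧ DifferentiableOn ℂ g₀ (B m) ∧
      (∀ i, ∀ q ∈ B m, ‖g i q‖ ≤ C) ∧ (∀ q ∈ B m, ‖g₀ q‖ ≤ C) ∧
      ∀ q ∈ B m, ∑ i, F i q * g i q + G q * g₀ q = 1) :
    ∃ (g : Fin N → X → ℂ) (g₀ : X → ℂ),
      (∀ i, DifferentiableOn ℂ (g i) (⋃ m, B m)) ∧ DifferentiableOn ℂ g₀ (⋃ m, B m) ∧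
      (∀ i, ∀ q ∈ ⋃ m, B m, ‖g i q‖ ≤ C) ∧ (∀ q ∈ ⋃ m, B m, ‖g₀ q‖ ≤ C) ∧
      ∀ q ∈ ⋃ m, B m, ∑ i, F i q * g i q + G q * g₀ q = 1 := by
  classical
  choose g g₀ hg hg0 hgb hg0b hid using hsol
  set 𝒰 : Ultrafilter ℕ := Ultrafilter.of atTop with h𝒰
  have hle : (𝒰 : Filter ℕ) ≤ atTop := Ultrafilter.of_le _
  -- limits of a sequence of functions, the `m`-th of which is defined on `B m`
  have key : ∀ u : ℕ → X → ℂ, (∀ m, DifferentiableOn ℂ (u m) (B m)) →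
      (∀ m, ∀ q ∈ B m, ‖u m q‖ ≤ C) →
      ∃ v : X → ℂ, DifferentiableOn ℂ v (⋃ m, B m) ∧ (∀ q ∈ ⋃ m, B m, ‖v q‖ ≤ C) ∧
        ∀ q ∈ ⋃ m, B m, Tendsto (fun m => u m q) 𝒰 (𝓝 (v q)) := by
    intro u hu hub
    have h1 : ∀ k, ∃ v : X → ℂ, DifferentiableOn ℂ v (B k) ∧ (∀ q ∈ B k, ‖v q‖ ≤ C) ∧
        ∀ q ∈ B k, Tendsto (fun m => u m q) 𝒰 (𝓝 (v q)) := by
      intro k
      rcases (B k).eq_empty_or_nonempty with he | ⟨q0, hq0⟩
      · refine ⟨fun _ => 0, ?_, ?_, ?_⟩ <;> rw [he] <;> simp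
      · have hC : 0 ≤ C := (norm_nonneg _).trans (hub k q0 hq0)
        obtain ⟨v, hv1, hv2, hv3⟩ := Cor.ultra_lim (hB k) 𝒰 (fun m => if k ≤ m then u m else 0) (by
          intro m
          split_ifs with hkm
          · exact (hu m).mono (hmono hkm)
          · exact differentiableOn_const _) (C := C) (by
          intro m q hq
          split_ifs with hkm
          · exact hub m q (hmono hkm hq)
          · simpa using hC)
        refine ⟨v, hv1, hv2, fun q hq => ?_⟩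
        refine (hv3 q hq).congr' ?_
        have h2 : ∀ᶠ m in (𝒰 : Filter ℕ), k ≤ m := hle (eventually_ge_atTop k)
        filter_upwards [h2] with m hm
        rw [if_pos hm]
    choose v hv1 hv2 hv3 using h1
    have hU : ∀ q, q ∈ ⋃ m, B m → ∃ k, q ∈ B k := fun q hq => mem_iUnion.1 hq
    set V : X → ℂ := fun q => if h : ∃ k, q ∈ B k then v h.choose q else 0 with hV
    have hVeq : ∀ k, ∀ q ∈ B k, V q = v k q := by
      intro k q hq
      have h : ∃ k, q ∈ B k := ⟨k, hq⟩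
      have h2 : V q = v h.choose q := by
        rw [hV]
        simp only [dif_pos h]
      rw [h2]
      exact tendsto_nhds_unique (hv3 _ q h.choose_spec) (hv3 k q hq)
    refine ⟨V, ?_, ?_, ?_⟩
    · intro q hq
      obtain ⟨k, hk⟩ := hU q hq
      have h2 : DifferentiableAt ℂ (v k) q := (hv1 k q hk).differentiableAt ((hB k).mem_nhds hk)
      have h3 : V =ᶠ[𝓝 q] v k := by
        filter_upwards [(hB k).mem_nhds hk] with p hp
        exact hVeq k p hp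
      exact (h2.congr_of_eventuallyEq h3).differentiableWithinAt
    · intro q hq
      obtain ⟨k, hk⟩ := hU q hq
      rw [hVeq k q hk]
      exact hv2 k q hk
    · intro q hq
      obtain ⟨k, hk⟩ := hU q hq
      rw [hVeq k q hk]
      exact hv3 k q hk
  choose v hv1 hv2 hv3 using fun i => key (fun m => g m i) (fun m => hg m i) (fun m => hgb m i)
  obtain ⟨v0, hv01, hv02, hv03⟩ := key g₀ hg0 hg0b
  refine ⟨v, v0, hv1, hv01, hv2, hv02, fun q hq => ?_⟩
  have h1 : Tendsto (fun m => ∑ i, F i q * g m i q + G q * g₀ m q) 𝒰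
      (𝓝 (∑ i, F i q * v i q + G q * v0 q)) := by
    refine Tendsto.add (tendsto_finsetSum _ fun i _ => ?_) ?_
    · exact (hv3 i q hq).const_mul _
    · exact (hv03 q hq).const_mul _
  obtain ⟨k, hk⟩ := mem_iUnion.1 hq
  have h2 : ∀ᶠ m in (𝒰 : Filter ℕ), ∑ i, F i q * g m i q + G q * g₀ m q = 1 := by
    have h3 : ∀ᶠ m in (𝒰 : Filter ℕ), k ≤ m := hle (eventually_ge_atTop k)
    filter_upwards [h3] with m hm
    exact hid m q (hmono hm hk)
  have h4 : Tendsto (fun m => ∑ i, F i q * g m i q + G q * g₀ m q) 𝒰 (𝓝 1) :=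
    tendsto_const_nhds.congr' (h2.mono fun m hm => hm.symm)
  exact tendsto_nhds_unique h1 h4

/-- **The general theorem**: domains with holomorphic retractions onto the slices. -/
theorem base_thm {N : ℕ} {δ C : ℝ} (hδ : 0 < δ) (H : Siegel2 N δ C) {U : Set ℂ} (hU : IsOpen U)
    (hUc : IsSimplyConnected U) (hne : U ≠ univ) (hne' : U.Nonempty)
    {D : Set (ℂ × E)} {Λ : ℂ → ℂ × E → E} (hR : RetrU U D Λ)
    (f : Fin N → ℂ → ℂ) (hf : ∀ i, DifferentiableOn ℂ (f i) U)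
    (hfb : ∀ i, ∀ z ∈ U, ‖f i z‖ ≤ 1)
    (G : ℂ × E → ℂ) (hG : DifferentiableOn ℂ G D) (hGb : ∀ q ∈ D, ‖G q‖ ≤ 1)
    (hlow : ∀ q ∈ D, (∀ i, ‖f i q.1‖ < δ) → δ ≤ ‖G q‖) :
    ∃ (g : Fin N → ℂ × E → ℂ) (g₀ : ℂ × E → ℂ),
      (∀ i, DifferentiableOn ℂ (g i) D) ∧ DifferentiableOn ℂ g₀ D ∧
      (∀ i, ∀ q ∈ D, ‖g i q‖ ≤ C) ∧ (∀ q ∈ D, ‖g₀ q‖ ≤ C) ∧
      ∀ q ∈ D, ∑ i, f i q.1 * g i q + G q * g₀ q = 1 := by
  obtain ⟨a, ha⟩ := hne'
  obtain ⟨h, ψ, hh, hbij, -, -, hψ, hψm, hinv, -⟩ :=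
    Pool.Agent.Helper202.Riemann.riemann_inv hU hUc hne ha
  set r : ℕ → ℝ := fun m => 1 - 1 / ((m : ℝ) + 2) with hr
  have hr0 : ∀ m, 0 < r m := by
    intro m
    have : (0 : ℝ) ≤ m := Nat.cast_nonneg m
    rw [hr]
    beta_reduce
    rw [sub_pos, div_lt_one (by linarith)]
    linarith
  have hr1 : ∀ m, r m < 1 := by
    intro m
    have : (0 : ℝ) ≤ m := Nat.cast_nonneg m
    rw [hr]
    beta_reduce
    have : 0 < 1 / ((m : ℝ) + 2) := by positivity
    linarith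
  have hrt : Tendsto r atTop (𝓝 1) := by
    have h1 : Tendsto r atTop (𝓝 (1 - 0)) := by
      refine tendsto_const_nhds.sub ?_
      have h2 := (tendsto_one_div_add_atTop_nhds_zero_nat (𝕜 := ℝ))
      have h3 := h2.comp (tendsto_add_atTop_nat 1)
      refine h3.congr (fun m => ?_)
      simp only [Function.comp_apply]
      push_cast
      ring
    rwa [sub_zero] at h1
  have hrm : Monotone r := by
    intro m n hmn
    have : (0 : ℝ) ≤ m := Nat.cast_nonneg m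
    have h2 : (m : ℝ) ≤ n := by exact_mod_cast hmn
    simp only [hr]
    gcongr
  set B : ℕ → Set (ℂ × E) := fun m => {q ∈ D | ‖ψ q.1‖ < r m} with hB
  have hBo : ∀ m, IsOpen (B m) := by
    intro m
    have hc : ContinuousOn (fun q : ℂ × E => ‖ψ q.1‖) D := by
      refine ContinuousOn.norm ?_
      refine hψ.continuousOn.comp continuousOn_fst ?_
      intro q hq
      exact hR.sub _ hq
    exact hc.isOpen_inter_preimage hR.op (isOpen_Iio (a := r m))
  have hBm : Monotone B := fun m n hmn q hq => ⟨hq.1, lt_of_lt_of_le hq.2 (hrm hmn)⟩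
  have hBU : (⋃ m, B m) = D := by
    ext q
    rw [mem_iUnion]
    constructor
    · rintro ⟨m, hm⟩
      exact hm.1
    · intro hq
      have h1 : ‖ψ q.1‖ < 1 := by
        have := hψm (hR.sub _ hq)
        rwa [mem_ball_zero_iff] at this
      obtain ⟨m, hm⟩ := (hrt.eventually (lt_mem_nhds h1)).exists
      exact ⟨m, hq, hm⟩
  have h1 := exhaust (C := C) B hBo hBm (fun i q => f i q.1) G (fun m =>
    solve_rho hδ H hU hR hh hbij.mapsTo hψ hψm hinv f hf hfb G hG hGb hlow (hr0 m) (hr1 m))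
  rw [hBU] at h1
  exact h1

end Pool.Agent.H788R3.Cor2
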