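import Mathlib
import Pool.Agent.H788R3.Cor2.Base

/-!
Domains with complete Reinhardt fibres over simply connected plane domains.
-/

set_option autoImplicit false
set_option linter.unusedSectionVars false

open MeasureTheory Metric Set Filter Topology Complex
open scoped ContDiff

namespace Pool.Agent.H788R3.Cor2

/-- The domain over `U` whose fibre over `z` is the complete Reinhardt domain `R`, the `j`-th
coordinate scaled by `exp (-φ_j (z))`. -/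
def Dom {n : ℕ} (U : Set ℂ) (φ : Fin n → ℂ → ℝ) (R : Set (Fin n → ℝ)) : Set (ℂ × (Fin n → ℂ)) :=
  {p | p.1 ∈ U ∧ (fun j => Real.exp (φ j p.1) * ‖p.2 j‖) ∈ R}

theorem dom_open {n : ℕ} {U : Set ℂ} (hU : IsOpen U) {φ : Fin n → ℂ → ℝ}
    (hφ : ∀ j, ContinuousOn (φ j) U) {R : Set (Fin n → ℝ)} (hR : IsOpen R) :
    IsOpen (Dom U φ R) := by
  have h1 : ContinuousOn (fun p : ℂ × (Fin n → ℂ) => fun j => Real.exp (φ j p.1) * ‖p.2 j‖)
      {p | p.1 ∈ U} := by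
    refine continuousOn_pi.2 (fun j => ?_)
    refine ContinuousOn.mul ?_ ?_
    · exact Real.continuous_exp.comp_continuousOn ((hφ j).comp continuousOn_fst (fun p hp => hp))
    · fun_prop
  have h2 : IsOpen {p : ℂ × (Fin n → ℂ) | p.1 ∈ U} := hU.preimage continuous_fst
  exact h1.isOpen_inter_preimage h2 hR

/-- the retractions -/
def LL {n : ℕ} (A : Fin n → ℂ → ℂ → ℂ) (c : ℂ) (p : ℂ × (Fin n → ℂ)) : Fin n → ℂ :=
  fun j => A j c p.1 * p.2 j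

theorem retr_dom {n : ℕ} {U : Set ℂ} (hU : IsOpen U) {φ : Fin n → ℂ → ℝ}
    (hφ : ∀ j, ContinuousOn (φ j) U) {R : Set (Fin n → ℝ)} (hR : IsOpen R)
    (hRc : ∀ x ∈ R, ∀ y : Fin n → ℝ, (∀ j, 0 ≤ y j ∧ y j ≤ x j) → y ∈ R)
    {A : Fin n → ℂ → ℂ → ℂ}
    (hA1 : ∀ j, ∀ c ∈ U, DifferentiableOn ℂ (A j c) U) (hA2 : ∀ j, ∀ c ∈ U, A j c c = 1)
    (hA3 : ∀ j, ∀ c ∈ U, ∀ z ∈ U, ‖A j c z‖ ≤ Real.exp (φ j z - φ j c))
    (hA4 : ∀ j, ContinuousOn (fun q : ℂ × ℂ => A j q.1 q.2) (U ×ˢ U)) :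
    RetrU U (Dom U φ R) (LL A) := by
  refine ⟨dom_open hU hφ hR, fun p hp => hp.1, ?_, ?_, ?_, ?_⟩
  · intro c hc p hp
    refine ⟨hc, hRc _ hp.2 _ (fun j => ⟨by positivity, ?_⟩)⟩
    change Real.exp (φ j c) * ‖A j c p.1 * p.2 j‖ ≤ Real.exp (φ j p.1) * ‖p.2 j‖
    rw [norm_mul, ← mul_assoc]
    refine mul_le_mul_of_nonneg_right ?_ (norm_nonneg _)
    calc Real.exp (φ j c) * ‖A j c p.1‖ ≤ Real.exp (φ j c) * Real.exp (φ j p.1 - φ j c) :=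
          mul_le_mul_of_nonneg_left (hA3 j c hc p.1 hp.1) (Real.exp_pos _).le
      _ = Real.exp (φ j p.1) := by rw [← Real.exp_add]; ring_nf
  · intro c y hy
    funext j
    change A j c c * y j = y j
    rw [hA2 j c hy.1, one_mul]
  · intro c hc p hp
    refine differentiableAt_pi.2 (fun j => ?_)
    have h1 : DifferentiableAt ℂ (A j c) p.1 := (hA1 j c hc).differentiableAt (hU.mem_nhds hp.1)
    have h2 : DifferentiableAt ℂ (fun p : ℂ × (Fin n → ℂ) => A j c p.1) p :=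
      DifferentiableAt.comp (f := fun p : ℂ × (Fin n → ℂ) => p.1) p h1 differentiableAt_fst
    have h3 : DifferentiableAt ℂ (fun p : ℂ × (Fin n → ℂ) => p.2 j) p := by fun_prop
    exact h2.fun_mul h3
  · intro y
    refine continuousOn_pi.2 (fun j => ?_)
    have h1 : ContinuousOn (fun q : ℂ × ℂ => A j q.1 q.2) {q | q.1 ∈ U ∧ (q.2, y) ∈ Dom U φ R} :=
      (hA4 j).mono (fun q hq => ⟨hq.1, hq.2.1⟩)
    exact h1.mul continuousOn_const

/-- slope of the affine support -/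
noncomputable def sl (φ : ℂ → ℝ) (c : ℂ) : ℂ :=
  (fderiv ℝ φ c 1 : ℂ) - I * (fderiv ℝ φ c I : ℂ)

theorem sl_re (φ : ℂ → ℝ) (c v : ℂ) : (sl φ c * v).re = fderiv ℝ φ c v := by
  have h1 : v = (v.re : ℝ) • (1 : ℂ) + (v.im : ℝ) • I := by
    apply Complex.ext <;> simp
  have h2 : fderiv ℝ φ c v = v.re * fderiv ℝ φ c 1 + v.im * fderiv ℝ φ c I := by
    conv_lhs => rw [h1]
    rw [map_add, map_smul, map_smul, smul_eq_mul, smul_eq_mul]
  rw [h2]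
  simp [sl]
  ring

theorem support {U : Set ℂ} (hU : IsOpen U) {φ : ℂ → ℝ} (hφ : ConvexOn ℝ U φ)
    (hd : DifferentiableOn ℝ φ U) {c z : ℂ} (hc : c ∈ U) (hz : z ∈ U) :
    φ c + fderiv ℝ φ c (z - c) ≤ φ z := by
  set L : ℝ →ᵃ[ℝ] ℂ := AffineMap.lineMap c z with hL
  have h1 : ConvexOn ℝ (L ⁻¹' U) (φ ∘ L) := hφ.comp_affineMap L
  have hL0 : L 0 = c := by simp [hL]
  have hL1 : L 1 = z := by simp [hL]
  have h2 : HasDerivAt (φ ∘ L) (fderiv ℝ φ c (z - c)) 0 := by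
    have h3 : HasDerivAt L (z - c) 0 := by
      have := AffineMap.hasDerivAt_lineMap (𝕜 := ℝ) (a := c) (b := z) (x := (0 : ℝ))
      exact this
    have h4 : HasFDerivAt φ (fderiv ℝ φ c) (L 0) := by
      rw [hL0]
      exact ((hd c hc).differentiableAt (hU.mem_nhds hc)).hasFDerivAt
    exact h4.comp_hasDerivAt (0 : ℝ) h3
  have h5 := h1.le_slope_of_hasDerivAt (x := 0) (y := 1) (by
    change L 0 ∈ U
    rw [hL0]; exact hc) (by
    change L 1 ∈ U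
    rw [hL1]; exact hz) one_pos h2
  rw [slope_def_field] at h5
  simp only [Function.comp_apply, hL0, hL1, sub_zero, div_one] at h5
  linarith

theorem sl_cont {U : Set ℂ} (hU : IsOpen U) {φ : ℂ → ℝ} (hd : ContDiffOn ℝ 1 φ U) :
    ContinuousOn (sl φ) U := by
  have h1 : ContinuousOn (fderiv ℝ φ) U := hd.continuousOn_fderiv_of_isOpen hU le_rfl
  have h2 : ∀ v : ℂ, ContinuousOn (fun c => ((fderiv ℝ φ c v : ℝ) : ℂ)) U := fun v =>
    Complex.continuous_ofReal.comp_continuousOn (h1.clm_apply continuousOn_const)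
  exact (h2 1).sub (continuousOn_const.mul (h2 I))

theorem conv_sc {U : Set ℂ} (hU : Convex ℝ U) (hne : U.Nonempty) : IsSimplyConnected U := by
  have : ContractibleSpace U := hU.contractibleSpace hne
  change SimplyConnectedSpace U
  infer_instance

/-- **Corona theorem on domains with complete Reinhardt fibres.** -/
theorem main1 (N : ℕ) (δ : ℝ) (hδ : 0 < δ) : ∃ C : ℝ,
    ∀ (n : ℕ) (U : Set ℂ) (φ : Fin n → ℂ → ℝ) (R : Set (Fin n → ℝ)),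
      IsOpen U → IsSimplyConnected U → U.Nonempty → U ≠ univ →
      (∀ j, ContinuousOn (φ j) U) →
      (∀ j, ∃ A : ℂ → ℂ → ℂ, (∀ c ∈ U, DifferentiableOn ℂ (A c) U) ∧ (∀ c ∈ U, A c c = 1) ∧
        (∀ c ∈ U, ∀ z ∈ U, ‖A c z‖ ≤ Real.exp (φ j z - φ j c)) ∧
        ContinuousOn (fun q : ℂ × ℂ => A q.1 q.2) (U ×ˢ U)) →
      IsOpen R → (∀ x ∈ R, ∀ y : Fin n → ℝ, (∀ j, 0 ≤ y j ∧ y j ≤ x j) → y ∈ R) →
      ∀ f : Fin N → ℂ → ℂ, (∀ i, DifferentiableOn ℂ (f i) U) → (∀ i, ∀ z ∈ U, ‖f i z‖ ≤ 1) →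
      ∀ G : ℂ × (Fin n → ℂ) → ℂ, DifferentiableOn ℂ G (Dom U φ R) →
        (∀ p ∈ Dom U φ R, ‖G p‖ ≤ 1) →
        (∀ p ∈ Dom U φ R, δ ≤ ∑ i, ‖f i p.1‖ ^ 2 + ‖G p‖ ^ 2) →
      ∃ (g : Fin N → ℂ × (Fin n → ℂ) → ℂ) (g₀ : ℂ × (Fin n → ℂ) → ℂ),
        (∀ i, DifferentiableOn ℂ (g i) (Dom U φ R)) ∧ DifferentiableOn ℂ g₀ (Dom U φ R) ∧
        (∀ i, ∀ p ∈ Dom U φ R, ‖g i p‖ ≤ C) ∧ (∀ p ∈ Dom U φ R, ‖g₀ p‖ ≤ C) ∧
        ∀ p ∈ Dom U φ R, ∑ i, f i p.1 * g i p + G p * g₀ p = 1 := by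
  set δ' : ℝ := min (δ / (N + 1)) 1 with hδ'
  have hN : (0 : ℝ) < N + 1 := by positivity
  have hδ'0 : 0 < δ' := lt_min (by positivity) one_pos
  have hδ'1 : δ' ≤ 1 := min_le_right _ _
  obtain ⟨C, hC⟩ := siegel2 N hδ'0 hδ'1
  refine ⟨C, ?_⟩
  intro n U φ R hU hUc hne hne' hφ hA hR hRc f hf hfb G hG hGb hlow
  choose A hA1 hA2 hA3 hA4 using hA
  have hret := retr_dom hU hφ hR hRc hA1 hA2 hA3 hA4
  refine base_thm hδ'0 hC hU hUc hne' hne hret f hf hfb G hG hGb ?_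
  intro q hq hi
  have h1 := hlow q hq
  have h2 : ∀ i, ‖f i q.1‖ ^ 2 ≤ δ / (N + 1) := by
    intro i
    have h3 := (hi i).le
    have h4 := hfb i q.1 hq.1
    have h5 : δ' ≤ δ / (N + 1) := min_le_left _ _
    nlinarith [norm_nonneg (f i q.1)]
  have h3 : ∑ i, ‖f i q.1‖ ^ 2 ≤ N * (δ / (N + 1)) := by
    refine (Finset.sum_le_sum (fun i _ => h2 i)).trans (le_of_eq ?_)
    simp
  have h4 : δ - N * (δ / (N + 1)) = δ / (N + 1) := by
    field_simp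
    ring
  have h5 : δ / (N + 1) ≤ ‖G q‖ ^ 2 := by linarith
  have h6 : δ' ≤ ‖G q‖ ^ 2 := (min_le_left _ _).trans h5
  have h7 := hGb q hq
  nlinarith [norm_nonneg (G q)]

/-- convex functions have supports -/
theorem conv_supp {U : Set ℂ} (hU : IsOpen U) {φ : ℂ → ℝ} (hφ : ConvexOn ℝ U φ)
    (hd : ContDiffOn ℝ 1 φ U) : ∃ A : ℂ → ℂ → ℂ, (∀ c ∈ U, DifferentiableOn ℂ (A c) U) ∧
      (∀ c ∈ U, A c c = 1) ∧ (∀ c ∈ U, ∀ z ∈ U, ‖A c z‖ ≤ Real.exp (φ z - φ c)) ∧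
        ContinuousOn (fun q : ℂ × ℂ => A q.1 q.2) (U ×ˢ U) := by
  refine ⟨fun c z => Complex.exp (sl φ c * (z - c)), ?_, ?_, ?_, ?_⟩
  · intro c _
    fun_prop
  · intro c _
    simp
  · intro c hc z hz
    rw [Complex.norm_exp, sl_re]
    have := support hU hφ (hd.differentiableOn one_ne_zero) hc hz
    exact Real.exp_le_exp.2 (by linarith)
  · refine Complex.continuous_exp.comp_continuousOn ?_
    refine ContinuousOn.mul ?_ ?_
    · exact (sl_cont hU hd).comp continuousOn_fst (fun q hq => hq.1)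
    · fun_prop

end Pool.Agent.H788R3.Cor2
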