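import Mathlib
import Pool.Agent.H788R3.Cor2.Conc

/-!
The strictly pseudoconvex domains `|z|² + ∑ exp (2 u_j (z)) |y_j|² < 1`.
-/

set_option autoImplicit false
set_option linter.unusedSectionVars false

open MeasureTheory Metric Set Filter Topology Complex
open scoped ContDiff

namespace Pool.Agent.H788R3.Cor2

theorem lg_pos {z : ℂ} (hz : z ∈ ball (0 : ℂ) 1) : 0 < 1 - ‖z‖ ^ 2 := by
  rw [mem_ball_zero_iff] at hz
  nlinarith [norm_nonneg z]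

theorem lg_convex : ConvexOn ℝ (ball (0 : ℂ) 1) (fun z => -(1 / 2) * Real.log (1 - ‖z‖ ^ 2)) := by
  refine ⟨convex_ball 0 1, ?_⟩
  intro x hx y hy a b ha hb hab
  have h1 := lg_pos hx
  have h2 := lg_pos hy
  have h3 : ‖a • x + b • y‖ ≤ a * ‖x‖ + b * ‖y‖ := by
    refine (norm_add_le _ _).trans ?_
    rw [norm_smul, norm_smul, Real.norm_of_nonneg ha, Real.norm_of_nonneg hb]
  have h4 : ‖a • x + b • y‖ ^ 2 ≤ a * ‖x‖ ^ 2 + b * ‖y‖ ^ 2 := by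
    have h5 : ‖a • x + b • y‖ ^ 2 ≤ (a * ‖x‖ + b * ‖y‖) ^ 2 := by
      gcongr
    refine h5.trans ?_
    have hb' : b = 1 - a := by linarith
    subst hb'
    nlinarith [mul_nonneg (mul_nonneg ha hb) (sq_nonneg (‖x‖ - ‖y‖))]
  have h5 : a * (1 - ‖x‖ ^ 2) + b * (1 - ‖y‖ ^ 2) ≤ 1 - ‖a • x + b • y‖ ^ 2 := by
    nlinarith
  have h6 : 0 < a * (1 - ‖x‖ ^ 2) + b * (1 - ‖y‖ ^ 2) := by
    rcases ha.eq_or_lt with h0 | h0
    · have hb1 : b = 1 := by linarith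
      rw [← h0, hb1]
      simpa using h2
    · have : 0 ≤ b * (1 - ‖y‖ ^ 2) := mul_nonneg hb h2.le
      have : 0 < a * (1 - ‖x‖ ^ 2) := mul_pos h0 h1
      linarith
  have h7 : Real.log (a * (1 - ‖x‖ ^ 2) + b * (1 - ‖y‖ ^ 2)) ≤ Real.log (1 - ‖a • x + b • y‖ ^ 2) :=
    Real.log_le_log h6 h5
  have h8 := strictConcaveOn_log_Ioi.concaveOn.2 (x := 1 - ‖x‖ ^ 2) (y := 1 - ‖y‖ ^ 2) h1 h2 ha hb hab
  simp only [smul_eq_mul] at h8 ⊢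
  linarith

theorem lg_diff : ContDiffOn ℝ 1 (fun z : ℂ => -(1 / 2) * Real.log (1 - ‖z‖ ^ 2)) (ball 0 1) := by
  refine contDiffOn_const.mul (ContDiffOn.log ?_ (fun z hz => (lg_pos hz).ne'))
  exact (contDiff_const.sub (contDiff_norm_sq ℝ)).contDiffOn

/-- the domain `|z|² + ∑ exp (2 u_j (z)) |y_j|² < 1` -/
def Du {n : ℕ} (u : Fin n → ℂ → ℝ) : Set (ℂ × (Fin n → ℂ)) :=
  {p | ‖p.1‖ ^ 2 + ∑ j, Real.exp (2 * u j p.1) * ‖p.2 j‖ ^ 2 < 1}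

theorem Du_eq {n : ℕ} (u : Fin n → ℂ → ℝ) :
    Du u = Dom (ball 0 1) (fun j z => u j z + -(1 / 2) * Real.log (1 - ‖z‖ ^ 2))
      {x | ∑ j, x j ^ 2 < 1} := by
  ext ⟨z, y⟩
  have key : z ∈ ball (0 : ℂ) 1 → ∀ j,
      (Real.exp (u j z + -(1 / 2) * Real.log (1 - ‖z‖ ^ 2)) * ‖y j‖) ^ 2 =
        Real.exp (2 * u j z) * ‖y j‖ ^ 2 / (1 - ‖z‖ ^ 2) := by
    intro hz j
    have h1 := lg_pos hz
    rw [mul_pow, ← Real.exp_nat_mul]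
    have h2 : ((2 : ℕ) : ℝ) * (u j z + -(1 / 2) * Real.log (1 - ‖z‖ ^ 2)) =
        2 * u j z - Real.log (1 - ‖z‖ ^ 2) := by
      push_cast
      ring
    rw [h2, Real.exp_sub, Real.exp_log h1]
    ring
  constructor
  · intro h
    have h0 : ‖z‖ ^ 2 + ∑ j, Real.exp (2 * u j z) * ‖y j‖ ^ 2 < 1 := h
    have hs : 0 ≤ ∑ j, Real.exp (2 * u j z) * ‖y j‖ ^ 2 :=
      Finset.sum_nonneg fun j _ => by positivity
    have hz : z ∈ ball (0 : ℂ) 1 := by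
      rw [mem_ball_zero_iff]
      nlinarith [norm_nonneg z]
    refine ⟨hz, ?_⟩
    change ∑ j, (Real.exp (u j z + -(1 / 2) * Real.log (1 - ‖z‖ ^ 2)) * ‖y j‖) ^ 2 < 1
    rw [Finset.sum_congr rfl (fun j _ => key hz j), ← Finset.sum_div, div_lt_one (lg_pos hz)]
    linarith
  · rintro ⟨hz, h⟩
    have h' : ∑ j, (Real.exp (u j z + -(1 / 2) * Real.log (1 - ‖z‖ ^ 2)) * ‖y j‖) ^ 2 < 1 := h
    rw [Finset.sum_congr rfl (fun j _ => key hz j), ← Finset.sum_div, div_lt_one (lg_pos hz)] at h'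
    change ‖z‖ ^ 2 + ∑ j, Real.exp (2 * u j z) * ‖y j‖ ^ 2 < 1
    linarith

end Pool.Agent.H788R3.Cor2
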